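import Pool.Agent.H8.TD.Targets

/-!
# The action of a self-map on the field of rational functions (TAU)
-/

set_option autoImplicit false

open MvPolynomial
open Pool.Agent.H12.ZD (pmap v O Res DenseOrbit NoInv)
open Pool.Agent.H18.HIT
open Pool.Agent.H8.ZA (HFam Const NA sz)
open Pool.Agent.H8.TD

namespace Pool.Agent.H36.TD

section

variable {k : Type} [Field k]

theorem aeval_smul_h {σ A : Type} [CommRing A] [Algebra k A] {P : MvPolynomial σ k} {d : ℕ}
    (hP : P.IsHomogeneous d) (c : A) (y : σ → A) :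
    aeval (fun i => c * y i) P = c ^ d * aeval y P := by
  classical
  rw [aeval_def, aeval_def, eval₂_eq, eval₂_eq, Finset.mul_sum]
  refine Finset.sum_congr rfl fun s hs => ?_
  have h1 := hP (mem_support_iff.1 hs)
  rw [Finsupp.weight_apply, Finsupp.sum] at h1
  have h2 : ∑ i ∈ s.support, s i = d := by
    rw [← h1]
    exact Finset.sum_congr rfl fun i _ => by simp
  have h3 : ∏ i ∈ s.support, (c * y i) ^ s i = c ^ d * ∏ i ∈ s.support, y i ^ s i := by
    rw [← h2, ← Finset.prod_pow_eq_pow_sum, ← Finset.prod_mul_distrib]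
    exact Finset.prod_congr rfl fun i _ => mul_pow _ _ _
  rw [h3]
  ring

/-- homogenization -/
noncomputable def hg (q : Po 3 k) (D : ℕ) : Po 4 k :=
  ∑ m ∈ q.support, C (coeff m q) * (X 0 ^ (D - ∑ i, m i) * ∏ i : Fin 3, X i.succ ^ m i)

theorem hg_hom (q : Po 3 k) {D : ℕ} (hD : q.totalDegree ≤ D) : (hg q D).IsHomogeneous D := by
  unfold hg
  apply IsHomogeneous.sum
  intro m hm
  have h1 : ∑ i, m i ≤ D := by
    refine le_trans ?_ hD
    have h2 := le_totalDegree hm
    rwa [Finsupp.sum_fintype _ _ (fun _ => rfl)] at h2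
  have h2 : (∏ i : Fin 3, (X i.succ : Po 4 k) ^ m i).IsHomogeneous (∑ i, m i) := by
    apply IsHomogeneous.prod
    intro i _
    have h3 := (isHomogeneous_X k (i.succ : Fin 4)).pow (m i)
    rwa [one_mul] at h3
  have h3 := (isHomogeneous_C (Fin 4) (coeff m q)).mul
    (((isHomogeneous_X k (0 : Fin 4)).pow (D - ∑ i, m i)).mul h2)
  have h4 : 0 + (1 * (D - ∑ i, m i) + ∑ i, m i) = D := by omega
  rwa [h4] at h3

theorem dh_X0 : dh (X 0 : Po 4 k) = 1 := by
  unfold dh
  rw [aeval_X]
  rfl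

theorem dh_Xs (i : Fin 3) : dh (X i.succ : Po 4 k) = X i := by
  unfold dh
  rw [aeval_X]
  rfl

theorem dh_hg (q : Po 3 k) (D : ℕ) : dh (hg q D) = q := by
  unfold hg
  refine (map_sum (dh (k := k)) _ _).trans (Eq.trans ?_ q.as_sum.symm)
  refine Finset.sum_congr rfl fun m _ => ?_
  rw [map_mul, map_mul, map_pow, map_prod, dh_X0, one_pow, one_mul, monomial_eq,
    Finsupp.prod_fintype _ _ (fun _ => pow_zero _)]
  have h1 : dh (C (coeff m q) : Po 4 k) = C (coeff m q) := dh.commutes _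
  have h2 : ∏ i : Fin 3, dh ((X i.succ : Po 4 k) ^ m i) = ∏ i : Fin 3, (X i : Po 3 k) ^ m i :=
    Finset.prod_congr rfl fun i _ => by rw [map_pow, dh_Xs]
  rw [h1, h2]

/-- the dehomogenization of a nonzero form is not zero -/
theorem dh_ne {P : Po 4 k} {d : ℕ} (hP : P.IsHomogeneous d) (h0 : P ≠ 0) : dh P ≠ 0 := by
  intro h1
  apply h0
  set L := FractionRing (Po 4 k)
  have hX : algebraMap (Po 4 k) L (X 0) ≠ 0 := by
    intro h
    exact X_ne_zero (0 : Fin 4) (IsFractionRing.injective (Po 4 k) L (by rw [h, map_zero]))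
  let ι : Po 3 k →ₐ[k] L :=
    aeval fun i => algebraMap (Po 4 k) L (X i.succ) / algebraMap (Po 4 k) L (X 0)
  have h2 : ι.comp dh = aeval (fun j : Fin 4 =>
      (algebraMap (Po 4 k) L (X 0))⁻¹ * algebraMap (Po 4 k) L (X j)) := by
    apply algHom_ext
    intro j
    rw [AlgHom.comp_apply, aeval_X]
    refine Fin.cases ?_ (fun i => ?_) j
    · rw [dh_X0, map_one, inv_mul_cancel₀ hX]
    · rw [dh_Xs]
      change aeval _ (X i) = _
      rw [aeval_X, div_eq_inv_mul]
  have h3 := DFunLike.congr_fun h2 P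
  rw [AlgHom.comp_apply, h1, map_zero, aeval_smul_h hP] at h3
  have h4 : aeval (fun j : Fin 4 => algebraMap (Po 4 k) L (X j)) P = algebraMap (Po 4 k) L P := by
    have h5 : (aeval (fun j : Fin 4 => algebraMap (Po 4 k) L (X j)) : Po 4 k →ₐ[k] L) =
        Algebra.algHom k (Po 4 k) L := by
      apply algHom_ext
      intro j
      rw [aeval_X]
      rfl
    rw [h5]
    rfl
  rw [h4] at h3
  have h5 : algebraMap (Po 4 k) L P = 0 := by
    rcases mul_eq_zero.mp h3.symm with h | h
    · exact absurd h (pow_ne_zero _ (inv_ne_zero hX))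
    · exact h
  exact IsFractionRing.injective (Po 4 k) L (by rw [h5, map_zero])

/-- a form at a tuple -/
theorem form_at {P : Po 4 k} {d : ℕ} (hP : P.IsHomogeneous d) (T : Tup 4 k) (hT : dh (T 0) ≠ 0) :
    algebraMap (Po 3 k) (K3 k) (dh (aeval T P)) = algebraMap (Po 3 k) (K3 k) (dh (T 0)) ^ d *
      aeval (Fin.cons 1 (fun i : Fin 3 => qt (T i.succ) (T 0)) : Fin 4 → K3 k) P := by
  have hT' : algebraMap (Po 3 k) (K3 k) (dh (T 0)) ≠ 0 := by
    intro h
    exact hT (IsFractionRing.injective (Po 3 k) (K3 k) (by rw [h, map_zero]))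
  rw [← aeval_smul_h hP]
  have h1 : ((Algebra.algHom k (Po 3 k) (K3 k)).comp (dh.comp (aeval T : Po 4 k →ₐ[k] Po 4 k))) =
      aeval (fun j => algebraMap (Po 3 k) (K3 k) (dh (T 0)) *
        (Fin.cons 1 (fun i : Fin 3 => qt (T i.succ) (T 0)) : Fin 4 → K3 k) j) := by
    apply algHom_ext
    intro j
    rw [aeval_X, AlgHom.comp_apply, AlgHom.comp_apply, aeval_X]
    refine Fin.cases ?_ (fun i => ?_) j
    · rw [Fin.cons_zero, mul_one]
      rfl
    · rw [Fin.cons_succ]
      unfold qt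
      rw [mul_div_cancel₀ _ hT']
      rfl
  exact DFunLike.congr_fun h1 P

/-- a polynomial at the quotients -/
theorem poly_at (T : Fin 3 → K3 k) (q : Po 3 k) (D : ℕ) :
    aeval (Fin.cons 1 T : Fin 4 → K3 k) (hg q D) = aeval T q := by
  have h1 : (aeval (Fin.cons 1 T : Fin 4 → K3 k) : Po 4 k →ₐ[k] K3 k) =
      (aeval T : Po 3 k →ₐ[k] K3 k).comp dh := by
    apply algHom_ext
    intro j
    rw [AlgHom.comp_apply, aeval_X]
    refine Fin.cases ?_ (fun i => ?_) j
    · rw [dh_X0, map_one, Fin.cons_zero]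
    · rw [dh_Xs, aeval_X, Fin.cons_succ]
  rw [h1, AlgHom.comp_apply, dh_hg]

theorem aeval_hom {P : Po 4 k} {e d : ℕ} (hP : P.IsHomogeneous e) {F : Tup 4 k}
    (hF : ∀ i, (F i).IsHomogeneous d) : (aeval F P).IsHomogeneous (d * e) := by
  rw [aeval_def, eval₂_eq']
  apply IsHomogeneous.sum
  intro m hm
  have h1 : (∏ i, F i ^ m i).IsHomogeneous (∑ i, d * m i) := by
    apply IsHomogeneous.prod
    intro i _
    exact (hF i).pow (m i)
  have h2 : ∑ i, d * m i = d * e := by
    rw [← Finset.mul_sum]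
    congr 1
    have h3 := hP (mem_support_iff.1 hm)
    rw [Finsupp.weight_apply, Finsupp.sum_fintype _ _ (by intro i; simp)] at h3
    simpa using h3
  rw [h2] at h1
  have h3 := (isHomogeneous_C (Fin 4) (coeff m P)).mul h1
  rwa [zero_add] at h3

theorem it_hom {F : Tup 4 k} {d : ℕ} (hF : ∀ i, (F i).IsHomogeneous d) (n : ℕ) :
    ∀ i, (it F n i).IsHomogeneous (d ^ n) := by
  induction n with
  | zero =>
    intro i
    rw [it_zero, pow_zero]
    exact isHomogeneous_X k i
  | succ n ih =>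
    intro i
    rw [it_succ', pow_succ']
    exact aeval_hom (ih i) hF

theorem it_inj {F : Tup 4 k} (hF : Function.Injective (aeval F : Po 4 k →ₐ[k] Po 4 k)) (n : ℕ) :
    Function.Injective (aeval (it F n) : Po 4 k →ₐ[k] Po 4 k) := by
  induction n with
  | zero =>
    intro a b h
    rw [it_zero, aeval_X_left_apply, aeval_X_left_apply] at h
    exact h
  | succ n ih =>
    intro a b h
    rw [aeval_it_succ, aeval_it_succ] at h
    exact hF (ih h)

end

theorem pf_TAU : T_TAU := by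
  intro k _ F d hd hF hinj
  have hit0 : ∀ n, dh (it F n 0) ≠ 0 := by
    intro n
    apply dh_ne (it_hom hF n 0)
    intro h
    have h1 : aeval (it F n) (X 0 : Po 4 k) = aeval (it F n) (0 : Po 4 k) := by
      rw [aeval_X, map_zero, h]
    exact X_ne_zero (0 : Fin 4) (it_inj hinj n h1)
  have hF0 : dh (F 0) ≠ 0 := by
    have h := hit0 1
    rwa [it_one] at h
  let φ : Po 3 k →ₐ[k] K3 k := aeval fun i : Fin 3 => qt (F i.succ) (F 0)
  have hφ : Function.Injective φ := by
    rw [injective_iff_map_eq_zero]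
    intro q hq
    by_contra hq0
    have h1 := form_at (hg_hom q le_rfl) F hF0
    rw [poly_at] at h1
    have h2 : aeval (fun i : Fin 3 => qt (F i.succ) (F 0)) q = 0 := hq
    rw [h2, mul_zero] at h1
    have h3 : dh (aeval F (hg q q.totalDegree)) = 0 :=
      IsFractionRing.injective (Po 3 k) (K3 k) (by rw [h1, map_zero])
    refine dh_ne (aeval_hom (hg_hom q le_rfl) hF) ?_ h3
    intro h4
    have h5 : hg q q.totalDegree = 0 := hinj (by rw [h4, map_zero])
    apply hq0
    rw [← dh_hg q q.totalDegree, h5, map_zero]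
  let τ : K3 k →ₐ[k] K3 k := IsFractionRing.liftAlgHom (K := K3 k) hφ
  have hτ : ∀ q : Po 3 k, τ (algebraMap (Po 3 k) (K3 k) q) = φ q := fun q =>
    IsFractionRing.lift_algebraMap (K := K3 k) (g := (φ : Po 3 k →+* K3 k)) hφ q
  have hτd : ∀ {P : Po 4 k} {e : ℕ}, P.IsHomogeneous e →
      τ (algebraMap (Po 3 k) (K3 k) (dh P)) * algebraMap (Po 3 k) (K3 k) (dh (F 0)) ^ e =
        algebraMap (Po 3 k) (K3 k) (dh (aeval F P)) := by
    intro P e hP
    have h1 : φ.comp dh = aeval (Fin.cons 1 (fun i : Fin 3 => qt (F i.succ) (F 0)) :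
        Fin 4 → K3 k) := by
      apply algHom_ext
      intro j
      rw [AlgHom.comp_apply, aeval_X]
      refine Fin.cases ?_ (fun i => ?_) j
      · rw [dh_X0, map_one, Fin.cons_zero]
      · rw [dh_Xs, Fin.cons_succ]
        exact aeval_X _ i
    have h2 : φ (dh P) = aeval (Fin.cons 1 (fun i : Fin 3 => qt (F i.succ) (F 0)) :
        Fin 4 → K3 k) P := DFunLike.congr_fun h1 P
    rw [form_at hP F hF0, hτ, mul_comm, h2]
  have hF0' : algebraMap (Po 3 k) (K3 k) (dh (F 0)) ≠ 0 := by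
    intro h
    exact hF0 (IsFractionRing.injective (Po 3 k) (K3 k) (by rw [h, map_zero]))
  refine ⟨τ, fun n => ⟨hit0 n, ?_⟩⟩
  induction n with
  | zero =>
    intro i
    unfold ph qt xx
    rw [it_zero, dh_X0, dh_Xs, map_one, div_one]
    rfl
  | succ n ih =>
    intro i
    have h1 : ph τ (n + 1) i = τ (ph τ n i) := by
      unfold ph
      exact Function.iterate_succ_apply' _ _ _
    rw [h1, ih i]
    unfold qt
    rw [map_div₀, it_succ']
    change _ = algebraMap (Po 3 k) (K3 k) (dh (aeval F (it F n i.succ))) /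
      algebraMap (Po 3 k) (K3 k) (dh (aeval F (it F n 0)))
    rw [← hτd (it_hom hF n i.succ), ← hτd (it_hom hF n 0),
      mul_div_mul_right _ _ (pow_ne_zero _ hF0')]

end Pool.Agent.H36.TD
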